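import Pool.Agent.N926.Sup2.K
import Pool.Agent.N926.Sup2.Cg

/-!
# MP_c42a9c_nt, Q1

For every odd prime `p` (including `p = 3`) and every `r ≥ 1`, `A_r(p) ≡ B_r(p) (mod p^(r+4))`, where
`A_r(p) = ∑_{k=0}^{(p^r-1)/2} (4k+1) (1/2)_k^4 / k!^4` and
`B_r(p) = ∑_{k=0}^{p^r-1} (3k+1) (1/2)_k^3 / k!^3 2^(2k)`.
-/

set_option autoImplicit false

namespace Pool.Agent.Results.MP_c42a9c_nt.AllPowersQOne

open Finset Pool.Agent.N926.Sup Pool.Agent.N926.Sup2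

/-- the rising factorial `(x)_k = x (x+1) ⋯ (x+k-1)` -/
def rf (x : ℚ) (k : ℕ) : ℚ := ∏ i ∈ range k, (x + i)

/-- `A_r(p) = ∑_{k=0}^{(p^r-1)/2} (4k+1) (1/2)_k^4 / k!^4` -/
def SA (p r : ℕ) : ℚ :=
  ∑ k ∈ range ((p ^ r - 1) / 2 + 1), (4 * (k : ℚ) + 1) * (rf (1 / 2) k ^ 4 / (k.factorial : ℚ) ^ 4)

/-- `B_r(p) = ∑_{k=0}^{p^r-1} (3k+1) (1/2)_k^3 / k!^3 2^(2k)` -/
def SB (p r : ℕ) : ℚ :=
  ∑ k ∈ range (p ^ r), (3 * (k : ℚ) + 1) * (rf (1 / 2) k ^ 3 / (k.factorial : ℚ) ^ 3) * 2 ^ (2 * k)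

/-- `x ≡ y (mod p^m)`: `x - y = p^m u` with `u` a rational whose denominator is prime to `p` -/
def Congr (p m : ℕ) (x y : ℚ) : Prop := ∃ u : ℚ, ¬ p ∣ u.den ∧ x - y = (p : ℚ) ^ m * u

theorem rf_t (k : ℕ) : rf (1 / 2) k / (k.factorial : ℚ) = t k := by
  induction k with
  | zero => simp [rf, t_zero]
  | succ k ih =>
    have h1 : rf (1/2) (k+1) = rf (1/2) k * (1/2 + (k:ℚ)) := by
      unfold rf
      rw [prod_range_succ]
    have h2 : ((k.factorial : ℕ) : ℚ) ≠ 0 := by exact_mod_cast k.factorial_ne_zero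
    have h3 : (k:ℚ) + 1 ≠ 0 := by positivity
    rw [t_succ, ← ih, h1, Nat.factorial_succ]
    push_cast
    field_simp
    ring

theorem SA_eq (p r : ℕ) : SA p r = A ((p ^ r - 1) / 2) := by
  unfold SA A
  exact sum_congr rfl fun k _ => by rw [← div_pow, rf_t]

theorem SB_eq (p r : ℕ) : SB p r = B (p ^ r) := by
  unfold SB B
  exact sum_congr rfl fun k _ => by rw [← div_pow, rf_t, pow_mul]; norm_num

/-- **Q1** holds: for every odd prime `p` (including `p = 3`) and every `r ≥ 1`. -/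
theorem result (p : ℕ) (hp : p.Prime) (h2 : p ≠ 2) (r : ℕ) (hr : 1 ≤ r) :
    Congr p (r + 4) (SA p r) (SB p r) := by
  haveI : Fact p.Prime := ⟨hp⟩
  obtain ⟨s, rfl⟩ : ∃ s, r = s + 1 := ⟨r - 1, by omega⟩
  have hodd : p % 2 = 1 := by
    rcases hp.eq_two_or_odd with h | h
    · omega
    · exact h
  obtain ⟨h, hh⟩ : ∃ h, p = 2 * h + 1 := ⟨p / 2, by omega⟩
  have hpo : (p ^ (s+1)) % 2 = 1 := by
    rw [Nat.pow_mod, hodd]
    simp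
  obtain ⟨M, hM⟩ : ∃ M, p ^ (s+1) = 2 * M + 1 := ⟨p ^ (s+1) / 2, by omega⟩
  have e1 : (p ^ (s+1) - 1) / 2 = M := by omega
  have hP : (2 * (M:ℚ) + 1) = (p:ℚ) ^ (s+1) := by
    have : ((p ^ (s+1) : ℕ) : ℚ) = ((2 * M + 1 : ℕ) : ℚ) := by rw [hM]
    push_cast at this
    exact this.symm
  have hP0 : (2 * (M:ℚ) + 1) ≠ 0 := by positivity
  have h4 := mul_P hP (AB (p := p) h2 hM hh)
  obtain ⟨u, hu1, hu2⟩ := congr_of_Dv h4
  refine ⟨u, hu1, ?_⟩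
  rw [SA_eq, SB_eq, e1, hM, ← hu2]
  field_simp

end Pool.Agent.Results.MP_c42a9c_nt.AllPowersQOne
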